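import Mathlib
import Pool.Agent.L7h99.BI.Stm

set_option autoImplicit false

/-!
# Project BI, part MC: the weighted moment is finite and its supremum is continuous in time
-/

open MeasureTheory Set Filter Topology Real
open scoped ENNReal

namespace Pool.Agent.L7h44.BI

open Pool.Agent.L7h99.BI

/-- The closed unit cube. -/
def cube (d : ℕ) : Set (E d) := {x | ∀ i, x i ∈ Icc (0:ℝ) 1}

theorem isCompact_cube (d : ℕ) : IsCompact (cube d) := by
  have h := isCompact_univ_pi (fun _ : Fin d => (isCompact_Icc : IsCompact (Icc (0:ℝ) 1)))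
  have h2 := (EuclideanSpace.equiv (Fin d) ℝ).toHomeomorph.isCompact_preimage.2 h
  have h3 : (EuclideanSpace.equiv (Fin d) ℝ).toHomeomorph ⁻¹' (Set.pi univ fun _ : Fin d =>
      Icc (0:ℝ) 1) = cube d := by
    ext x
    change (∀ i ∈ (univ : Set (Fin d)), x i ∈ Icc (0:ℝ) 1) ↔ ∀ i, x i ∈ Icc (0:ℝ) 1
    exact ⟨fun h i => h i (mem_univ i), fun h i _ => h i⟩
  rwa [h3] at h2

theorem periodic_sum {d : ℕ} {h : E d → ℝ}
    (hp : ∀ x, ∀ i : Fin d, h (x + EuclideanSpace.single i 1) = h x) (n : Fin d → ℤ)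
    (s : Finset (Fin d)) : Function.Periodic h (∑ i ∈ s, n i • EuclideanSpace.single i (1:ℝ)) := by
  classical
  induction s using Finset.induction_on with
  | empty => intro x; simp
  | insert a s ha ih =>
    rw [Finset.sum_insert ha]
    have h1 : Function.Periodic h (EuclideanSpace.single a (1:ℝ)) := fun x => hp x a
    exact (h1.zsmul (n a)).add_period ih

theorem range_eq {d : ℕ} {h : E d → ℝ}
    (hp : ∀ x, ∀ i : Fin d, h (x + EuclideanSpace.single i 1) = h x) :
    range h = h '' cube d := by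
  classical
  apply Subset.antisymm
  · rintro _ ⟨x, rfl⟩
    refine ⟨x + ∑ i, (-⌊x i⌋) • EuclideanSpace.single i (1:ℝ), ?_, ?_⟩
    · intro j
      have h1 : (x + ∑ i, (-⌊x i⌋) • EuclideanSpace.single i (1:ℝ)) j = Int.fract (x j) := by
        rw [PiLp.add_apply, WithLp.ofLp_sum, Finset.sum_apply]
        rw [Finset.sum_eq_single j]
        · simp [Int.fract, sub_eq_add_neg]
        · intro b _ hb
          simp [hb.symm]
        · simp
      rw [h1]
      exact ⟨Int.fract_nonneg _, (Int.fract_lt_one _).le⟩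
    · exact periodic_sum hp _ _ x
  · exact image_subset_range _ _

theorem integrable_bound {d : ℕ} (C κ Q : ℝ) (hQ : (d : ℝ) + κ < Q) :
    Integrable (fun w : E d => C * (ph Q w * (1 + ‖w‖ ^ 2) ^ (κ / 2))) := by
  have h := integrable_rpow_neg_one_add_norm_sq (μ := (volume : Measure (E d))) (r := Q - κ)
    (by rw [finrank_euclideanSpace_fin]; linarith)
  refine (h.const_mul C).congr (Eventually.of_forall fun w => ?_)
  have hw : (0:ℝ) < 1 + ‖w‖ ^ 2 := by positivity
  simp only [ph]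
  rw [← rpow_add hw]
  congr 2
  ring

theorem t_MC : S_MC := by
  intro d T κ f hT hpos hper hcont hdec
  set g : ℝ → E d → ℝ := fun t x => ∫ w : E d, f t x w * (1 + ‖w‖ ^ 2) ^ (κ / 2) with hg
  have hwt : Continuous (fun w : E d => (1 + ‖w‖ ^ 2) ^ (κ / 2)) := by
    apply Continuous.rpow_const (by fun_prop)
    intro w
    left
    positivity
  have hfc : ∀ t ∈ Ico 0 T, ∀ x, Continuous (fun w => f t x w) := by
    intro t ht x
    have h1 : ContinuousOn ((fun p : ℝ × E d × E d => f p.1 p.2.1 p.2.2) ∘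
        (fun w : E d => (t, x, w))) univ := by
      apply hcont.comp (by fun_prop)
      intro w _
      exact ⟨ht, mem_univ _⟩
    exact continuousOn_univ.1 h1
  have hbd : ∀ C Q : ℝ, ∀ t ∈ Ico 0 T, ∀ x w, f t x w ≤ C * ph Q w →
      ‖f t x w * (1 + ‖w‖ ^ 2) ^ (κ / 2)‖ ≤ C * (ph Q w * (1 + ‖w‖ ^ 2) ^ (κ / 2)) := by
    intro C Q t ht x w h
    have hw : (0:ℝ) ≤ (1 + ‖w‖ ^ 2) ^ (κ / 2) := by positivity
    rw [Real.norm_of_nonneg (mul_nonneg (hpos t ht x w) hw)]
    calc _ ≤ (C * ph Q w) * (1 + ‖w‖ ^ 2) ^ (κ / 2) := mul_le_mul_of_nonneg_right h hw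
      _ = _ := by ring
  have hint : ∀ t ∈ Ico 0 T, ∀ x,
      Integrable (fun w : E d => f t x w * (1 + ‖w‖ ^ 2) ^ (κ / 2)) := by
    intro t ht x
    obtain ⟨C, Q, hQ, hC⟩ := hdec t ht.1 ht.2
    refine (integrable_bound (d := d) C κ Q hQ).mono'
      ((hfc t ht x).mul hwt).aestronglyMeasurable (Eventually.of_forall fun w => ?_)
    exact hbd C Q t ht x w (hC t ⟨ht.1, le_rfl⟩ x w)
  have hgc : ContinuousOn (fun p : ℝ × E d => g p.1 p.2) (Ico 0 T ×ˢ univ) := by
    rintro ⟨t₀, x₀⟩ ⟨ht₀, -⟩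
    simp only at ht₀
    obtain ⟨T', h1, h2⟩ := exists_between ht₀.2
    obtain ⟨C, Q, hQ, hC⟩ := hdec T' (ht₀.1.trans h1.le) h2
    have hev : ∀ᶠ p : ℝ × E d in 𝓝[Ico 0 T ×ˢ univ] (t₀, x₀), p.1 ∈ Ico 0 T ∧ p.1 ∈ Icc 0 T' := by
      have ha : ∀ᶠ p : ℝ × E d in 𝓝[Ico 0 T ×ˢ univ] (t₀, x₀), p ∈ Ico 0 T ×ˢ (univ : Set (E d)) :=
        self_mem_nhdsWithin
      have hb : ∀ᶠ p : ℝ × E d in 𝓝[Ico 0 T ×ˢ univ] (t₀, x₀), p.1 < T' := by
        apply nhdsWithin_le_nhds
        exact (continuous_fst.tendsto (t₀, x₀)).eventually (gt_mem_nhds h1)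
      filter_upwards [ha, hb] with p hp1 hp2
      exact ⟨hp1.1, hp1.1.1, hp2.le⟩
    apply continuousWithinAt_of_dominated (F := fun (p : ℝ × E d) (w : E d) =>
      f p.1 p.2 w * (1 + ‖w‖ ^ 2) ^ (κ / 2))
      (bound := fun w : E d => C * (ph Q w * (1 + ‖w‖ ^ 2) ^ (κ / 2)))
    · filter_upwards [hev] with p hp
      exact ((hfc p.1 hp.1 p.2).mul hwt).aestronglyMeasurable
    · filter_upwards [hev] with p hp
      exact Eventually.of_forall fun w => hbd C Q p.1 hp.1 p.2 w (hC p.1 hp.2 p.2 w)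
    · exact integrable_bound C κ Q hQ
    · refine Eventually.of_forall fun w => ?_
      apply ContinuousWithinAt.mul _ continuousWithinAt_const
      have h3 : ContinuousOn ((fun p : ℝ × E d × E d => f p.1 p.2.1 p.2.2) ∘
          (fun p : ℝ × E d => (p.1, p.2, w))) (Ico 0 T ×ˢ univ) := by
        apply hcont.comp (by fun_prop)
        intro p hp
        exact ⟨hp.1, mem_univ _⟩
      exact h3 (t₀, x₀) ⟨ht₀, mem_univ _⟩
  have hgper : ∀ t ∈ Ico 0 T, ∀ x, ∀ i : Fin d, g t (x + EuclideanSpace.single i 1) = g t x := by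
    intro t ht x i
    simp only [hg]
    congr 1
    funext w
    rw [hper t ht x w i]
  have hrange : ∀ t ∈ Ico 0 T, range (g t) = g t '' cube d := fun t ht => range_eq (hgper t ht)
  refine ⟨?_, fun t ht => ⟨?_, fun x => hint t ht x⟩⟩
  · rw [continuousOn_iff_continuous_domRestrict]
    have h4 : Continuous (fun p : (Ico 0 T : Set ℝ) × E d => g (p.1 : ℝ) p.2) := by
      have h5 : ContinuousOn ((fun p : ℝ × E d => g p.1 p.2) ∘
          (fun p : (Ico 0 T : Set ℝ) × E d => ((p.1 : ℝ), p.2))) univ := by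
        apply hgc.comp (by fun_prop)
        intro p _
        exact ⟨p.1.2, mem_univ _⟩
      exact continuousOn_univ.1 h5
    have h6 := (isCompact_cube d).continuous_sSup
      (f := fun (t : (Ico 0 T : Set ℝ)) (x : E d) => g (t : ℝ) x) h4
    refine h6.congr fun t => ?_
    rw [domRestrict_apply]
    change sSup (g (t : ℝ) '' cube d) = sSup (range (g (t : ℝ)))
    rw [hrange t t.2]
  · change BddAbove (range (g t))
    rw [hrange t ht]
    apply ((isCompact_cube d).image_of_continuousOn _).bddAbove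
    have h7 : ContinuousOn ((fun p : ℝ × E d => g p.1 p.2) ∘ (fun x : E d => (t, x))) (cube d) := by
      apply hgc.comp (by fun_prop)
      intro x _
      exact ⟨ht, mem_univ _⟩
    exact h7

end Pool.Agent.L7h44.BI
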