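import Mathlib
import Pool.Agent.L7h99.BI.Stm3
import Pool.Agent.L7h44.BI.Mc

set_option autoImplicit false

/-!
# Project BI3, part MC3: the collision frequency is finite and its supremum is continuous in time
-/

open MeasureTheory Set Filter Topology Real
open scoped ENNReal

namespace Pool.Agent.L7h44.BI

open Pool.Agent.L7h99.BI

/-- all the points are equivalent to points of the cube -/
theorem to_cube {d : ℕ} (x : E d) : ∃ x' ∈ cube d, ∀ h : E d → ℝ,
    (∀ x, ∀ i : Fin d, h (x + EuclideanSpace.single i 1) = h x) → h x' = h x := by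
  classical
  refine ⟨x + ∑ i, (-⌊x i⌋) • EuclideanSpace.single i (1:ℝ), ?_, ?_⟩
  · intro j
    have h1 : (x + ∑ i, (-⌊x i⌋) • EuclideanSpace.single i (1:ℝ)) j = Int.fract (x j) := by
      rw [PiLp.add_apply, WithLp.ofLp_sum, Finset.sum_apply]
      rw [Finset.sum_eq_single j]
      · simp [Int.fract, sub_eq_add_neg]
      · intro b _ hb
        simp [hb.symm]
      · simp
    rw [h1]
    exact ⟨Int.fract_nonneg _, (Int.fract_lt_one _).le⟩
  · intro h hp
    exact periodic_sum hp _ _ x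

/-- continuity in time in the weighted sup norms -/
theorem unif {d : ℕ} {T : ℝ} {f : ℝ → E d → E d → ℝ}
    (hpos : ∀ t ∈ Ico 0 T, ∀ x v, 0 ≤ f t x v)
    (hper : ∀ t ∈ Ico 0 T, ∀ x v, ∀ i : Fin d, f t (x + EuclideanSpace.single i 1) v = f t x v)
    (hcont : ContinuousOn (fun p : ℝ × E d × E d => f p.1 p.2.1 p.2.2) (Ico 0 T ×ˢ univ))
    (hdec : ∀ T' : ℝ, 0 ≤ T' → T' < T → ∀ q : ℝ, ∃ C : ℝ, ∀ t ∈ Icc 0 T', ∀ x v, f t x v ≤ C * ph q v)
    {t₀ : ℝ} (ht₀ : t₀ ∈ Ico 0 T) {Q : ℝ} (hQ : 0 ≤ Q) {η : ℝ} (hη : 0 < η) :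
    ∃ r : ℝ, 0 < r ∧ ∀ t ∈ Ico 0 T, |t - t₀| < r → ∀ x w, |f t x w - f t₀ x w| ≤ η * ph Q w := by
  obtain ⟨T', h1, h2⟩ := exists_between ht₀.2
  have hT'0 : 0 ≤ T' := ht₀.1.trans h1.le
  obtain ⟨C, hC⟩ := hdec T' hT'0 h2 (Q + 1)
  have hph : ∀ w : E d, 0 < ph Q w := by intro w; unfold ph; positivity
  have hph1 : ∀ w : E d, 0 < ph (Q + 1) w := by intro w; unfold ph; positivity
  set C' : ℝ := max C 1 with hC'
  have hC'1 : 1 ≤ C' := le_max_right _ _
  have hCb : ∀ t ∈ Icc 0 T', ∀ x w, f t x w ≤ C' * ph (Q + 1) w := by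
    intro t ht x w
    exact (hC t ht x w).trans (mul_le_mul_of_nonneg_right (le_max_left _ _) (hph1 w).le)
  set R : ℝ := C' / η with hR
  have hR0 : 0 < R := by positivity
  -- the compact set
  set K : Set (ℝ × E d × E d) := Icc 0 T' ×ˢ (cube d ×ˢ Metric.closedBall (0 : E d) R) with hK
  have hKc : IsCompact K := isCompact_Icc.prod ((isCompact_cube d).prod (isCompact_closedBall _ _))
  have hKs : K ⊆ Ico 0 T ×ˢ univ := by
    rintro ⟨t, x, w⟩ ⟨ht, -⟩
    exact ⟨⟨ht.1, lt_of_le_of_lt ht.2 h2⟩, mem_univ _⟩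
  have huc := hKc.uniformContinuousOn_of_continuous (hcont.mono hKs)
  rw [Metric.uniformContinuousOn_iff] at huc
  set cR : ℝ := (1 + R ^ 2) ^ (-(Q / 2)) with hcR
  have hcR0 : 0 < cR := by positivity
  obtain ⟨r, hr, hr2⟩ := huc (η * cR) (by positivity)
  refine ⟨min r (T' - t₀), lt_min hr (by linarith), ?_⟩
  intro t ht htr x w
  have htT' : t ∈ Icc 0 T' := by
    refine ⟨ht.1, ?_⟩
    have := (abs_lt.1 (lt_of_lt_of_le htr (min_le_right _ _))).2
    linarith
  have ht₀T' : t₀ ∈ Icc 0 T' := ⟨ht₀.1, h1.le⟩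
  rcases le_or_gt ‖w‖ R with hw | hw
  · obtain ⟨x', hx', hx2⟩ := to_cube x
    have e1 : f t x' w = f t x w := hx2 (fun x => f t x w) (fun x i => hper t ht x w i)
    have e2 : f t₀ x' w = f t₀ x w := hx2 (fun x => f t₀ x w) (fun x i => hper t₀ ht₀ x w i)
    rw [← e1, ← e2]
    have hwK : w ∈ Metric.closedBall (0 : E d) R := by rw [mem_closedBall_zero_iff]; exact hw
    have h3 := hr2 (t, x', w) ⟨htT', hx', hwK⟩ (t₀, x', w) ⟨ht₀T', hx', hwK⟩ (by
      rw [Prod.dist_eq, dist_self, Real.dist_eq]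
      exact max_lt (lt_of_lt_of_le htr (min_le_left _ _)) hr)
    rw [Real.dist_eq] at h3
    refine h3.le.trans ?_
    apply mul_le_mul_of_nonneg_left _ hη.le
    rw [hcR]
    unfold ph
    apply Real.rpow_le_rpow_of_nonpos (by positivity) _ (by linarith)
    have := norm_nonneg w
    nlinarith
  · have hs : ph (Q + 1) w ≤ ph Q w / R := by
      unfold ph
      have hp : (0:ℝ) < 1 + ‖w‖ ^ 2 := by positivity
      have e : -((Q + 1) / 2) = -(Q / 2) + -(1/2) := by ring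
      rw [e, Real.rpow_add hp, div_eq_mul_inv]
      apply mul_le_mul_of_nonneg_left _ (by positivity)
      rw [Real.rpow_neg hp.le, ← Real.sqrt_eq_rpow]
      apply inv_anti₀ hR0
      apply Real.le_sqrt_of_sq_le
      nlinarith
    have hb : ∀ t' ∈ Icc 0 T', f t' x w ≤ η * ph Q w := by
      intro t' ht'
      calc f t' x w ≤ C' * ph (Q + 1) w := hCb t' ht' x w
        _ ≤ C' * (ph Q w / R) := mul_le_mul_of_nonneg_left hs (by linarith)
        _ = η * ph Q w := by rw [hR]; field_simp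
    have a1 := hb t htT'
    have a2 := hb t₀ ht₀T'
    have a3 := hpos t ht x w
    have a4 := hpos t₀ ht₀ x w
    rw [abs_le]
    constructor <;> linarith

theorem t_MC3 : S_MC3 := by
  intro hRZ d T γ κ f hd hT hγ hγ0 hpos hper hcont hdec
  obtain ⟨hRZ1, -⟩ := hRZ d γ hd hγ hγ0
  set Q : ℝ := d + |κ| + 1 with hQ
  have hκ1 : κ ≤ |κ| := le_abs_self κ
  have hκ0 : 0 ≤ |κ| := abs_nonneg κ
  have hd0 : (0:ℝ) ≤ d := Nat.cast_nonneg d
  have hQd : (d:ℝ) < Q := by rw [hQ]; linarith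
  have hQ0 : 0 ≤ Q := by linarith
  obtain ⟨C1, hC1, hC1b⟩ := hRZ1 Q hQd
  have hi2 : Integrable (fun w : E d => ph Q w * (1 + ‖w‖ ^ 2) ^ (κ / 2)) := by
    have := integrable_bound (d := d) 1 κ Q (by rw [hQ]; linarith)
    simpa using this
  set C2 : ℝ := ∫ w : E d, ph Q w * (1 + ‖w‖ ^ 2) ^ (κ / 2) with hC2
  have hph : ∀ w : E d, 0 < ph Q w := by intro w; unfold ph; positivity
  have hC20 : 0 ≤ C2 := integral_nonneg fun w => mul_nonneg (hph w).le (by positivity)
  -- the weight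
  set W : E d → E d → ℝ := fun v w => ‖v - w‖ ^ γ + (1 + ‖w‖ ^ 2) ^ (κ / 2) with hW
  have hW0 : ∀ v w, 0 ≤ W v w := fun v w => by simp only [hW]; positivity
  have hWi : ∀ v, Integrable (fun w => ph Q w * W v w) := by
    intro v
    refine ((hC1b v).1.add hi2).congr (Eventually.of_forall fun w => ?_)
    simp only [hW, Pi.add_apply]
    ring
  have hWb : ∀ v, ∫ w, ph Q w * W v w ≤ C1 + C2 := by
    intro v
    have e : ∫ w, ph Q w * W v w = (∫ w, ph Q w * ‖v - w‖ ^ γ) + C2 := by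
      rw [hC2, ← integral_add (hC1b v).1 hi2]
      congr 1
      funext w
      simp only [hW]
      ring
    rw [e]
    linarith [(hC1b v).2]
  have hm1 : ∀ v : E d, AEStronglyMeasurable (fun w : E d => ‖v - w‖ ^ γ) := by
    intro v
    exact ((measurable_const.sub measurable_id).norm.pow_const γ).aestronglyMeasurable
  have hwt : Continuous (fun w : E d => (1 + ‖w‖ ^ 2) ^ (κ / 2)) := by
    apply Continuous.rpow_const (by fun_prop)
    intro w
    left
    positivity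
  have hfc : ∀ t ∈ Ico 0 T, ∀ x, Continuous (fun w => f t x w) := by
    intro t ht x
    have h1 : ContinuousOn ((fun p : ℝ × E d × E d => f p.1 p.2.1 p.2.2) ∘
        (fun w : E d => (t, x, w))) univ := by
      apply hcont.comp (by fun_prop)
      intro w _
      exact ⟨ht, mem_univ _⟩
    exact continuousOn_univ.1 h1
  -- integrability
  have hI : ∀ t ∈ Ico 0 T, ∀ x v, Integrable (fun w : E d => f t x w * ‖v - w‖ ^ γ) ∧
      Integrable (fun w : E d => f t x w * (1 + ‖w‖ ^ 2) ^ (κ / 2)) := by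
    intro t ht x v
    obtain ⟨C, hC⟩ := hdec t ht.1 ht.2 Q
    constructor
    · refine ((hC1b v).1.const_mul C).mono' ((hfc t ht x).aestronglyMeasurable.mul (hm1 v))
        (Eventually.of_forall fun w => ?_)
      have hw : (0:ℝ) ≤ ‖v - w‖ ^ γ := by positivity
      rw [Real.norm_of_nonneg (mul_nonneg (hpos t ht x w) hw), ← mul_assoc]
      exact mul_le_mul_of_nonneg_right (hC t ⟨ht.1, le_rfl⟩ x w) hw
    · refine (hi2.const_mul C).mono' ((hfc t ht x).mul hwt).aestronglyMeasurable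
        (Eventually.of_forall fun w => ?_)
      have hw : (0:ℝ) ≤ (1 + ‖w‖ ^ 2) ^ (κ / 2) := by positivity
      rw [Real.norm_of_nonneg (mul_nonneg (hpos t ht x w) hw), ← mul_assoc]
      exact mul_le_mul_of_nonneg_right (hC t ⟨ht.1, le_rfl⟩ x w) hw
  have hIW : ∀ t ∈ Ico 0 T, ∀ x v, Integrable (fun w : E d => f t x w * W v w) := by
    intro t ht x v
    refine ((hI t ht x v).1.add (hI t ht x v).2).congr (Eventually.of_forall fun w => ?_)
    simp only [hW, Pi.add_apply]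
    ring
  set G : ℝ → E d × E d → ℝ := fun t p => ∫ w : E d, f t p.1 w * W p.2 w with hG
  have hbdd : ∀ t ∈ Ico 0 T, BddAbove (range (G t)) := by
    intro t ht
    obtain ⟨C, hC⟩ := hdec t ht.1 ht.2 Q
    refine ⟨|C| * (C1 + C2), ?_⟩
    rintro _ ⟨p, rfl⟩
    simp only [hG]
    calc ∫ w, f t p.1 w * W p.2 w ≤ ∫ w, |C| * (ph Q w * W p.2 w) := by
          apply integral_mono (hIW t ht p.1 p.2) ((hWi p.2).const_mul _)
          intro w
          simp only
          rw [← mul_assoc]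
          apply mul_le_mul_of_nonneg_right _ (hW0 _ _)
          exact (hC t ⟨ht.1, le_rfl⟩ p.1 w).trans (mul_le_mul_of_nonneg_right (le_abs_self C) (hph w).le)
      _ = |C| * ∫ w, ph Q w * W p.2 w := integral_const_mul _ _
      _ ≤ _ := mul_le_mul_of_nonneg_left (hWb p.2) (abs_nonneg C)
  have hdiff : ∀ t₀ ∈ Ico 0 T, ∀ η : ℝ, 0 < η → ∃ r : ℝ, 0 < r ∧ ∀ t ∈ Ico 0 T, |t - t₀| < r →
      ∀ p, |G t p - G t₀ p| ≤ η * (C1 + C2) := by
    intro t₀ ht₀ η hη
    obtain ⟨r, hr, hr2⟩ := unif hpos hper hcont hdec ht₀ hQ0 hη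
    refine ⟨r, hr, ?_⟩
    intro t ht htr p
    simp only [hG]
    rw [← integral_sub (hIW t ht p.1 p.2) (hIW t₀ ht₀ p.1 p.2)]
    calc |∫ w, f t p.1 w * W p.2 w - f t₀ p.1 w * W p.2 w| ≤ ∫ w, |f t p.1 w * W p.2 w - f t₀ p.1 w * W p.2 w| :=
          abs_integral_le_integral_abs
      _ ≤ ∫ w, η * (ph Q w * W p.2 w) := by
          apply integral_mono ((hIW t ht p.1 p.2).sub (hIW t₀ ht₀ p.1 p.2)).abs ((hWi p.2).const_mul _)
          intro w
          simp only [Pi.sub_apply]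
          rw [← sub_mul, abs_mul, abs_of_nonneg (hW0 _ _), ← mul_assoc]
          exact mul_le_mul_of_nonneg_right (hr2 t ht htr p.1 w) (hW0 _ _)
      _ = η * ∫ w, ph Q w * W p.2 w := integral_const_mul _ _
      _ ≤ _ := mul_le_mul_of_nonneg_left (hWb p.2) hη.le
  refine ⟨?_, fun t ht => ⟨hbdd t ht, fun x v => hI t ht x v⟩⟩
  change ContinuousOn (fun t => ⨆ p : E d × E d, G t p) (Ico 0 T)
  rw [Metric.continuousOn_iff]
  intro t₀ ht₀ ε hε
  obtain ⟨r, hr, hr2⟩ := hdiff t₀ ht₀ (ε / (2 * (C1 + C2))) (by positivity)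
  refine ⟨r, hr, ?_⟩
  intro t ht htr
  rw [Real.dist_eq] at htr
  have h3 := hr2 t ht htr
  have e : ε / (2 * (C1 + C2)) * (C1 + C2) = ε / 2 := by field_simp
  rw [e] at h3
  have a1 : (⨆ p, G t p) ≤ (⨆ p, G t₀ p) + ε / 2 := by
    apply ciSup_le
    intro p
    have := (abs_le.1 (h3 p)).2
    have := le_ciSup (hbdd t₀ ht₀) p
    linarith
  have a2 : (⨆ p, G t₀ p) ≤ (⨆ p, G t p) + ε / 2 := by
    apply ciSup_le
    intro p
    have := (abs_le.1 (h3 p)).1
    have := le_ciSup (hbdd t ht) p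
    linarith
  rw [Real.dist_eq, abs_lt]
  constructor <;> linarith

end Pool.Agent.L7h44.BI
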